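import Pool.Agent.H48.CR.Pw
import Pool.Agent.H48.AQ.Ty
import Pool.Agent.H57.SL.Dic
import Pool.Agent.H57.SL.Def
import Pool.Agent.H38.MT.BA

/-!
# CR: Frobenius elements over `M` and a character of `K` unramified at `l`

* `lc_in`: a character which is trivial on the inertia group of `Q.P l` is trivial on the inertia groups of all primes of `𝓞 QBar` over `l`.
* `lc_frob`: let `w` be a prime of `M` over `l`, `nm w = nm l ^ f`, `P'` a prime of `𝓞 QBar` over `w`, `F ∈ Gal(QBar/M)` with `F x ≡ x ^ nm w` modulo `P'`.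
  Then `χ F = (χ (fr Q l)) ^ f`: let `P' = g • Q.P l`, `φ' = g (fr Q l) g⁻¹`; `φ'^f x ≡ x ^ nm w` modulo `P'`, so `F φ'^(-f)` is in the inertia group of `P'`.
* `lc_kum`: the Kummer generator `δ` of the restriction of `χ` to `Gal(QBar/M)`: `ord w δ` is divisible by 3 if `w` is a prime over `l ∤ 3` and `χ` is unramified at `l`, and
  then `B w δ π = lg w (δ π^(-ord w δ)) = kk δ F = f χ (fr Q l)` for any uniformiser `π`.
-/

set_option autoImplicit false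

open scoped NumberField Pointwise Classical
open IsDedekindDomain H63.MA H38.ML

noncomputable section

namespace H48.CR

open H48.AQ

variable {K : IntermediateField ℚ QBar} [NumberField K]

private theorem lc_tr (P P' : Ideal (𝓞 QBar)) (hP : P.IsPrime) (hP' : P'.IsPrime)
    (h : P.under (𝓞 K) = P'.under (𝓞 K)) : ∃ g : Gal(QBar/K), P' = g • P :=
  H57.SL.dic_tr P P' hP hP' h

theorem lc_in (Q : DP K QBar) (χ : Gal(QBar/K) →* Multiplicative (ZMod 3)) (l : Pl K)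
    (h : ∀ σ ∈ (Q.P l).inertia Gal(QBar/K), χ σ = 1) (P' : Ideal (𝓞 QBar)) (hP' : P'.IsPrime)
    (hl : P'.under (𝓞 K) = l.asIdeal) (σ : Gal(QBar/K)) (hσ : σ ∈ P'.inertia Gal(QBar/K)) :
    χ σ = 1 := by
  obtain ⟨g, rfl⟩ := lc_tr (K := K) (Q.P l) P' (Q.prime l) hP' ((Q.under l).trans hl.symm)
  have h1 : g⁻¹ * σ * g ∈ (Q.P l).inertia Gal(QBar/K) := by
    intro x
    have h2 : σ • (g • x) - g • x ∈ g • Q.P l := hσ (g • x)
    rw [Ideal.mem_pointwise_smul_iff_inv_smul_mem, smul_sub, inv_smul_smul] at h2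
    have h3 : (g⁻¹ * σ * g) • x = g⁻¹ • (σ • (g • x)) := by rw [mul_smul, mul_smul]
    rw [h3]
    exact h2
  have h2 := h _ h1
  rw [map_mul, map_mul, map_inv, mul_right_comm, inv_mul_cancel, one_mul] at h2
  exact h2

theorem lc_frob (Q : DP K QBar) (χ : Gal(QBar/K) →* Multiplicative (ZMod 3)) (l : Pl K)
    (h : ∀ σ ∈ (Q.P l).inertia Gal(QBar/K), χ σ = 1) (P' : Ideal (𝓞 QBar)) (hP' : P'.IsPrime)
    (hl : P'.under (𝓞 K) = l.asIdeal) (F : Gal(QBar/K)) (f : ℕ)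
    (hF : ∀ x : 𝓞 QBar, F • x - x ^ (nm l ^ f) ∈ P') : χ F = χ (H57.SL.fr Q l) ^ f := by
  obtain ⟨g, hg⟩ := lc_tr (K := K) (Q.P l) P' (Q.prime l) hP' ((Q.under l).trans hl.symm)
  obtain ⟨φ, hφ⟩ : ∃ φ : Gal(QBar/K), φ = g * H57.SL.fr Q l * g⁻¹ := ⟨_, rfl⟩
  have h1 : ∀ x : 𝓞 QBar, φ • x - x ^ nm l ∈ P' := by
    intro x
    rw [hg, Ideal.mem_pointwise_smul_iff_inv_smul_mem, smul_sub, smul_pow', hφ, mul_smul, mul_smul,
      inv_smul_smul]
    exact H57.SL.fr_spec Q l (g⁻¹ • x)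
  have h2 : ∀ (n : ℕ) (x : 𝓞 QBar), φ ^ n • x - x ^ (nm l ^ n) ∈ P' := by
    intro n
    induction n with
    | zero =>
      intro x
      rw [pow_zero, one_smul, pow_zero, pow_one, sub_self]
      exact P'.zero_mem
    | succ n ih =>
      intro x
      have h3 := ih (φ • x)
      have h4 : (φ • x) ^ (nm l ^ n) - (x ^ nm l) ^ (nm l ^ n) ∈ P' :=
        P'.mem_of_dvd (sub_dvd_pow_sub_pow _ _ _) (h1 x)
      have h5 := P'.add_mem h3 h4
      rw [sub_add_sub_cancel, ← mul_smul, ← pow_succ, ← pow_mul, ← pow_succ'] at h5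
      exact h5
  have h3 : F * (φ ^ f)⁻¹ ∈ P'.inertia Gal(QBar/K) := by
    intro x
    have h4 := P'.sub_mem (hF ((φ ^ f)⁻¹ • x)) (h2 f ((φ ^ f)⁻¹ • x))
    rw [smul_inv_smul, sub_sub_sub_cancel_right, ← mul_smul] at h4
    exact h4
  have h4 := lc_in Q χ l h P' hP' hl _ h3
  rw [map_mul, map_inv, mul_inv_eq_one, map_pow] at h4
  rw [h4, hφ, map_mul, map_mul, map_inv, mul_right_comm, mul_inv_cancel, one_mul]

/-- the Kummer generator of the restriction -/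
theorem lc_ex (M : IntermediateField K QBar) [NumberField M] {ω : M} (hω : IsPrimitiveRoot ω 3)
    (χ : Gal(QBar/K) →* Multiplicative (ZMod 3)) (hχ : FT χ) :
    ∃ δ : Mˣ, ∀ σ : Gal(QBar/M), kk 3 ω δ σ = Multiplicative.toAdd (χ (σ.restrictScalars K)) := by
  have hcl := H48.T3.alg_cl M
  have hfd : FiniteDimensional K M := FiniteDimensional.right ℚ K M
  obtain ⟨δ, hδ⟩ := kc_all (Ω := QBar) Nat.prime_three hω (rsM M χ) (rsM_ft M χ hχ)
  refine ⟨δ, fun σ => ?_⟩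
  unfold kk
  rw [← hδ]
  rfl

theorem lc_ord (M : IntermediateField K QBar) [NumberField M] {ω : M} (hω : IsPrimitiveRoot ω 3)
    (Q : DP K QBar) (χ : Gal(QBar/K) →* Multiplicative (ZMod 3)) (δ : Mˣ)
    (hδ : ∀ σ : Gal(QBar/M), kk 3 ω δ σ = Multiplicative.toAdd (χ (σ.restrictScalars K)))
    (l : Pl K) (h : ∀ σ ∈ (Q.P l).inertia Gal(QBar/K), χ σ = 1) (w : Pl M) (hw : Over w l)
    (hw3 : ¬ Above 3 w) : ((ord w δ : ℤ) : ZMod 3) = 0 := by
  have hcl := H48.T3.alg_cl M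
  obtain ⟨π, hπ⟩ := exists_unif w
  obtain ⟨L⟩ := exists_LD QBar Nat.prime_three hω hw3 hπ
  have hund : L.P.under (𝓞 K) = l.asIdeal := by
    rw [← (show w.asIdeal.comap (algebraMap (𝓞 K) (𝓞 M)) = l.asIdeal from hw), ← L.under]
    ext x
    exact Iff.rfl
  have h1 := lc_in Q χ l h L.P L.prime hund (L.t.restrictScalars K) (fun x => L.ht x)
  rw [← ld_kk_t Nat.prime_three hω hw3 hπ L δ, hδ, h1]
  rfl

theorem lc_val (M : IntermediateField K QBar) [NumberField M] {ω : M} (hω : IsPrimitiveRoot ω 3)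
    (Q : DP K QBar) (χ : Gal(QBar/K) →* Multiplicative (ZMod 3)) (δ : Mˣ)
    (hδ : ∀ σ : Gal(QBar/M), kk 3 ω δ σ = Multiplicative.toAdd (χ (σ.restrictScalars K)))
    (l : Pl K) (h : ∀ σ ∈ (Q.P l).inertia Gal(QBar/K), χ σ = 1) (w : Pl M) (hw : Over w l)
    (hw3 : ¬ Above 3 w) (f : ℕ) (hf : nm w = nm l ^ f) (π : Mˣ) (hπ : ord w π = 1) :
    H63.MA.B 3 ω w δ π = f * Multiplicative.toAdd (χ (H57.SL.fr Q l)) := by
  have hcl := H48.T3.alg_cl M
  have ho := lc_ord M hω Q χ δ hδ l h w hw hw3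
  obtain ⟨P', hP', hPw⟩ := gloc_over M QBar w.asIdeal w.isPrime
  obtain ⟨F, hF⟩ := gfrob_ex P' hP' hPw
  have hund : P'.under (𝓞 K) = l.asIdeal := by
    rw [← (show w.asIdeal.comap (algebraMap (𝓞 K) (𝓞 M)) = l.asIdeal from hw), ← hPw]
    ext x
    exact Iff.rfl
  have h1 : χ (F.restrictScalars K) = χ (H57.SL.fr Q l) ^ f := by
    refine lc_frob Q χ l h P' hP' hund (F.restrictScalars K) f fun x => ?_
    rw [← hf]
    exact hF x
  have hB : H63.MA.B 3 ω w δ π = lg 3 ω w (δ ^ ord w π * (π ^ ord w δ)⁻¹) := rfl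
  have hu : ord w (δ ^ ord w π * (π ^ ord w δ)⁻¹) = 0 := by
    rw [ord_mul, ord_inv, ord_zpow, ord_zpow]
    ring
  rw [hB, ← gfrob_unit Nat.prime_three hω hw3 P' hP' hPw F hF _ hu, kk_mul_arg Nat.prime_three hω,
    ← zpow_neg, kk_zpow_arg Nat.prime_three hω, kk_zpow_arg Nat.prime_three hω, hδ, hπ, h1]
  push_cast
  rw [ho, toAdd_pow, nsmul_eq_mul]
  ring

end H48.CR
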