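import Pool.Agent.H48.CR.Nz
import Pool.Agent.H63.MA.KumB
import Pool.Agent.H57.LI.Defs

/-!
# CR: the value of a character of `M` at the ideal `l 𝓞_M`

`rc_pow`: let `q = nm l` and `χ (w) = ep 3 (f a)` for every prime `w` of `M` over `l`, `nm w = q ^ f`. Then `χ (l 𝓞_M) = ep 3 ([M : K] a)`: by induction over the factorisation
of an ideal `I` all of whose prime factors lie over `l`: `N I = q ^ k`, `χ I = ep 3 (k a)`; and `N (l 𝓞_M) = q ^ [M : K]`.
-/

set_option autoImplicit false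

open scoped NumberField Classical
open IsDedekindDomain H63.MA

noncomputable section

namespace H48.CR

variable {K M : Type} [Field K] [NumberField K] [Field M] [NumberField M] [Algebra K M]

private theorem pw_ind (χ : Ideal (𝓞 M) →*₀ ℂ) (l : Pl K) (a : ZMod 3)
    (h : ∀ w : Pl M, Over w l → ∃ f : ℕ, nm w = nm l ^ f ∧ χ w.asIdeal = ep 3 (f * a))
    (I : Ideal (𝓞 M)) : I ≠ ⊥ → (∀ w : Pl M, w.asIdeal ∣ I → Over w l) →
    ∃ k : ℕ, Ideal.absNorm I = nm l ^ k ∧ χ I = ep 3 (k * a) := by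
  induction I using UniqueFactorizationMonoid.induction_on_prime with
  | h₁ => exact fun h => absurd rfl h
  | h₂ I hI =>
    intro _ _
    rw [Ideal.isUnit_iff] at hI
    refine ⟨0, ?_, ?_⟩
    · rw [hI, Ideal.absNorm_top, pow_zero]
    · rw [hI, ← Ideal.one_eq_top, map_one, Nat.cast_zero, zero_mul, ep_zero]
  | h₃ I J hI hJ ih =>
    intro _ hw
    have hJ1 : J ≠ ⊥ := hJ.ne_zero
    obtain ⟨k, hk1, hk2⟩ := ih hI fun w hd => hw w (hd.mul_left J)
    obtain ⟨w, hwJ⟩ : ∃ w : Pl M, w.asIdeal = J := ⟨⟨J, Ideal.isPrime_of_prime hJ, hJ1⟩, rfl⟩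
    obtain ⟨f, hf1, hf2⟩ := h w (hw w (by rw [hwJ]; exact dvd_mul_right J I))
    refine ⟨f + k, ?_, ?_⟩
    · rw [map_mul, hk1, pow_add, ← hf1, ← hwJ]
      rfl
    · rw [map_mul, hk2, ← hwJ, hf2, ← ep_add Nat.prime_three]
      congr 1
      push_cast
      ring

theorem pw_over (l : Pl K) (w : Pl M) (h : w.asIdeal ∣ l.asIdeal.map (algebraMap (𝓞 K) (𝓞 M))) :
    Over w l := by
  have h1 := Ideal.map_le_iff_le_comap.1 (Ideal.le_of_dvd h)
  obtain ⟨v, hv⟩ := exists_below (K := K) w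
  have h2 : l = v := by
    apply HeightOneSpectrum.ext
    refine l.isMaximal.eq_of_le v.isPrime.ne_top ?_
    rw [← (show w.asIdeal.comap (algebraMap (𝓞 K) (𝓞 M)) = v.asIdeal from hv)]
    exact h1
  rw [h2]
  exact hv

theorem pw_dvd (l : Pl K) (w : Pl M) (h : Over w l) :
    w.asIdeal ∣ l.asIdeal.map (algebraMap (𝓞 K) (𝓞 M)) := by
  rw [Ideal.dvd_iff_le, Ideal.map_le_iff_le_comap]
  exact (show w.asIdeal.comap (algebraMap (𝓞 K) (𝓞 M)) = l.asIdeal from h).ge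

theorem pw_nm (l : Pl K) :
    Ideal.absNorm (l.asIdeal.map (algebraMap (𝓞 K) (𝓞 M))) = nm l ^ Module.finrank K M := by
  rw [Ideal.absNorm_algebraMap]
  have h1 : Module.finrank (𝓞 K) (𝓞 M) = Module.finrank K M :=
    (IsFractionRing.finrank_eq (𝓞 K) K (𝓞 M) M).symm
  rw [h1]
  rfl

theorem rc_pow (χ : Ideal (𝓞 M) →*₀ ℂ) (l : Pl K) (a : ZMod 3)
    (h : ∀ w : Pl M, Over w l → ∃ f : ℕ, nm w = nm l ^ f ∧ χ w.asIdeal = ep 3 (f * a)) :
    χ (l.asIdeal.map (algebraMap (𝓞 K) (𝓞 M))) = ep 3 (Module.finrank K M * a) := by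
  have h0 : l.asIdeal.map (algebraMap (𝓞 K) (𝓞 M)) ≠ ⊥ := by
    rw [Ne, Ideal.map_eq_bot_iff_of_injective (FaithfulSMul.algebraMap_injective (𝓞 K) (𝓞 M))]
    exact l.ne_bot
  obtain ⟨k, hk1, hk2⟩ := pw_ind χ l a h _ h0 fun w hw => pw_over l w hw
  rw [pw_nm] at hk1
  have h2 : Module.finrank K M = k := Nat.pow_right_injective (one_lt_nm l) hk1
  rw [hk2, h2]

/-- the residue degree of a prime over `l` is at most `[M : K]` -/
theorem pw_deg (l : Pl K) (w : Pl M) (h : Over w l) {f : ℕ} (hf : nm w = nm l ^ f) :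
    f ≤ Module.finrank K M := by
  have h1 : Ideal.absNorm w.asIdeal ∣ nm l ^ Module.finrank K M := by
    rw [← pw_nm (M := M) l]
    exact map_dvd Ideal.absNorm (pw_dvd l w h)
  have h2 : nm w ∣ nm l ^ Module.finrank K M := h1
  rw [hf] at h2
  exact (Nat.pow_dvd_pow_iff_le_right (one_lt_nm l)).1 h2

end H48.CR
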